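import Pool.Agent.H65.G4.Ears
import Pool.Agent.H1.G4.PcChk
import Pool.Agent.H72.G4.Row

/-!
# Path contraction at a vertex with the word `2q1q`, corner `1`

The new arc is `x 3 → x 0` (`x 0` in).
-/

set_option autoImplicit false

namespace Pool.Agent.H22.G4

open Relation Pool.Agent.H13.DA Pool.Agent.H72.G4 Pool.Agent.H21.G4 Pool.Agent.H13.G4
  Pool.Agent.H55.G4 Pool.Agent.H65.G4 Pool.Agent.H32.G4

variable {V : Type*} [DecidableEq V] {T : Finset (V × V × V)} {D : V → V → Prop} {a b c : V}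

/-- the facts of the old digraph, from the structure of the ear side -/
theorem pcb_of {u o s i d : V} (hT : Ts T D a b c) (h : PcH T D a b c u o s i d) :
    Pcb T D u o s i d where
  n1 := h.n1
  n2 := h.n2
  e2 := by
    intro x y z hx hz hy hyu h1 h2
    have w : ∀ {t}, (t = o ∨ t = s ∨ t = i) → Wq o s i d t := by
      rintro t (k | k | k)
      · exact Or.inl k
      · exact Or.inr (Or.inl k)
      · exact Or.inr (Or.inr (Or.inl k))
    exact h.ear2 hT (w hx) hy (w hz) hyu h1 h2
  e3 := by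
    intro x y z t hx ht hy hz hyu hzu h1 h2 h3
    have w : ∀ {t}, (t = o ∨ t = s ∨ t = i) → Wq o s i d t := by
      rintro t (k | k | k)
      · exact Or.inl k
      · exact Or.inr (Or.inl k)
      · exact Or.inr (Or.inr (Or.inl k))
    exact h.ear3 hT (w hx) hy hz (w ht) hyu hzu h1 h2 h3

/-- **The word `2q1q`, corner `1`, `x 0` in.** -/
theorem pc_2q1q_in [Infinite V] (hM : MCw T D a b c) (hT : Ts T D a b c) {u s d : V}
    {x : Fin 4 → V} {w : Fin 4 → CT} (hr : Rot T D u 3 x w) (w0 : w 0 = CT.s2)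
    (w1 : w 1 = CT.q) (w2 : w 2 = CT.s1) (w3 : w 3 = CT.q) (hin : D (x 0) u)
    (h : PcH T D a b c u (x 2) s (x 1) d) (ho : ¬ Tr a b c (x 2)) (hi : ¬ Tr a b c (x 1)) :
    False := by
  have has := hT.pl.asymm
  have htr := hT.pl.tri
  have irr : ∀ x, ¬ D x x := fun x k => has x x k k
  have hu := h.gu.1
  have hg := h.gu.2
  have hq := h.q
  obtain ⟨e1, e2, e3, e4, e5, e6, e7, e8, e9, e10⟩ := hq.ne hT
  have i01 : (0 : Fin 4) + 1 = 1 := rfl
  have i12 : (1 : Fin 4) + 1 = 2 := rfl
  have i23 : (2 : Fin 4) + 1 = 3 := rfl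
  have i30 : (3 : Fin 4) + 1 = 0 := rfl
  -- the directions
  have c0 := hr.cor 0
  rw [i01, w0] at c0
  have d10 : D (x 1) (x 0) := by
    obtain ⟨-, ⟨k, -, -⟩ | ⟨-, -, k⟩⟩ := c0
    · exact absurd k (has _ _ hin)
    · exact k
  have d1u : D (x 1) u := hq.iu
  have du2 : D u (x 2) := hq.uo
  have c2 := hr.cor 2
  rw [i23, w2] at c2
  have d32 : D (x 3) (x 2) := by
    obtain ⟨-, ⟨-, -, k⟩ | ⟨k, -, -⟩⟩ := c2
    · exact k
    · exact absurd k (has _ _ du2)
  have du3 : D u (x 3) := by
    obtain ⟨-, ⟨-, k, -⟩ | ⟨k, -, -⟩⟩ := c2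
    · exact k
    · exact absurd k (has _ _ du2)
  -- different spokes
  have ne : ∀ {i j : Fin 4}, i ≠ j → x i ≠ x j := fun k e => k (hr.inj e)
  have n01 : x 0 ≠ x 1 := ne (by decide)
  have n02 : x 0 ≠ x 2 := ne (by decide)
  have n03 : x 0 ≠ x 3 := ne (by decide)
  have n12 : x 1 ≠ x 2 := ne (by decide)
  have n13 : x 1 ≠ x 3 := ne (by decide)
  have n23 : x 2 ≠ x 3 := ne (by decide)
  -- non-arcs
  have a03 : ¬ Ar D (x 0) (x 3) := by
    intro k
    rcases hr.adj hT hu k with ⟨k1, k2⟩ | ⟨k1, k2⟩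
    · exact absurd k1 (by decide)
    · exact k2 w3
  have a02 : ¬ Ar D (x 0) (x 2) := by
    intro k
    rcases hr.adj hT hu k with ⟨k1, k2⟩ | ⟨k1, k2⟩
    · exact absurd k1 (by decide)
    · exact absurd k1 (by decide)
  have a13 : ¬ Ar D (x 1) (x 3) := by
    intro k
    rcases hr.adj hT hu k with ⟨k1, k2⟩ | ⟨k1, k2⟩
    · exact absurd k1 (by decide)
    · exact absurd k1 (by decide)
  have dn : ∀ {z : V}, Re D z → z ≠ d := fun hz e => hq.nd (e ▸ hz)
  have rx : ∀ j, Re D (x j) := fun j => (ar_re ((hr.nb _).2 ⟨j, rfl⟩)).2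
  have s0 : x 0 ≠ s := by
    intro e
    exact a02 (Or.inr (by rw [e]; exact hq.os))
  have s3 : x 3 ≠ s := by
    intro e
    exact a13 (Or.inr (by rw [e]; exact hq.si))
  have as0 : ¬ Ar D s (x 0) := by
    intro k
    rcases h.n2 (x 0) (hT.pl.ar_adj (Or.inr hin)) (hT.pl.ar_adj k) with k' | k' | k'
    · exact n02 k'
    · exact n01.symm k'.symm
    · exact dn (rx 0) k'
  have W0 : ¬ Wq (x 2) s (x 1) d (x 0) := by
    rintro (k | k | k | k)
    · exact n02 k
    · exact s0 k
    · exact n01 k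
    · exact dn (rx 0) k
  have W3 : ¬ Wq (x 2) s (x 1) d (x 3) := by
    rintro (k | k | k | k)
    · exact n23 k.symm
    · exact s3 k
    · exact n13 k.symm
    · exact dn (rx 3) k
  -- the new arc
  set A : V → V → Prop := fun p r => p = x 3 ∧ r = x 0 with hAdef
  have rp0 : rp (Wq (x 2) s (x 1) d) s (x 0) = x 0 := rp_out W0
  have rp3 : rp (Wq (x 2) s (x 1) d) s (x 3) = x 3 := rp_out W3
  have fb0 : ∀ {y}, Fb (x 2) s (x 1) (x 0) y → y = x 0 := by
    rintro y (k | ⟨k, -⟩)
    · exact k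
    · exact absurd k s0
  have fb3 : ∀ {y}, Fb (x 2) s (x 1) (x 3) y → y = x 3 := by
    rintro y (k | ⟨k, -⟩)
    · exact k
    · exact absurd k s3
  have nm : ∀ {m}, Nm D u (x 2) s (x 1) m → m ≠ x 3 → m ≠ x 0 → m = s := by
    rintro m (k | ⟨k1, k2, k3⟩) h1 h2
    · exact k
    · obtain ⟨j, hj⟩ := (hr.nb m).1 k1
      subst hj
      exfalso
      fin_cases j
      · exact h2 rfl
      · exact k3 rfl
      · exact k2 rfl
      · exact h1 rfl
  obtain ⟨hasym, htri⟩ := ears (A := A) hT hq hg (pcb_of hT h)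
    (by
      rintro p r ⟨rfl, rfl⟩
      exact ⟨Or.inr ⟨Or.inl du3, n23.symm, n13.symm⟩, Or.inr ⟨Or.inr hin, n02, n01⟩, n03.symm⟩)
    (by
      rintro p r ⟨rfl, rfl⟩
      refine ⟨fun k => n03 k.1, fun p' r' k1 k2 k3 => ?_⟩
      rw [fb3 k1, fb0 k2] at k3
      exact a03 (Or.inl k3))
    (by
      rintro p r m ⟨rfl, rfl⟩ hm m3 m0 k1 k2
      have := nm hm m3 m0
      subst this
      rcases k1 with k1 | ⟨p', r', g1, g2, g3⟩
      · exact n03 k1.1
      · rw [fb0 g1] at g3
        rcases g2 with g2 | ⟨-, g2 | g2⟩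
        · exact as0 (Or.inr (g2 ▸ g3))
        · exact a02 (Or.inl (g2 ▸ g3))
        · exact has _ _ d10 (g2 ▸ g3))
    (by
      rintro p r ⟨rfl, rfl⟩ p' r' k1 k2 k3 k4
      rw [fb3 k1] at k3
      exact absurd k3 (has _ _ du3))
    (by
      rintro p m ⟨k, -⟩
      exact absurd k.symm s3)
    (by
      rintro p m ⟨-, k⟩
      exact absurd k.symm s0)
  have fi : ∀ {t}, Wq (x 2) s (x 1) d t → rp (Wq (x 2) s (x 1) d) s t = s := fun k => rp_in k
  refine pc_fill hM hT hq hu (w := s) (y1 := x 2) (y2 := x 1) (A := A) (p0 := x 0)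
    (Or.inr (Or.inl ⟨rfl, Or.inl ⟨rfl, rfl⟩⟩)) ho hi h.n1 h.n2
    (Or.inr ⟨hT.pl.ar_adj (Or.inr hin), W0⟩) ?_ hasym htri ?_
  · rintro p r ⟨rfl, rfl⟩
    exact ⟨rx 3, rx 0, fun e => irr u (by rw [e] at du3; exact du3),
      fun e => irr u (by rw [e] at hin; exact hin),
      Or.inr ⟨rp0, x 3, hT.pl.ar_adj (Or.inl du3), rfl⟩⟩
  · intro O hO hE
    set n : ℕ → V := fun j => if j = 0 then s else if j = 1 then x 0 else if j = 2 then x 3 else
      if j = 3 then x 2 else if j = 4 then x 1 else u with hn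
    have m0 : n 0 = s := rfl
    have m1 : n 1 = x 0 := rfl
    have m2 : n 2 = x 3 := rfl
    have m3 : n 3 = x 2 := rfl
    have m4 : n 4 = x 1 := rfl
    have m5 : n 5 = u := rfl
    have u0 : u ≠ x 0 := fun e => irr u (by rw [← e] at hin; exact hin)
    have u3 : u ≠ x 3 := fun e => irr u (by rw [← e] at du3; exact du3)
    have us : u ≠ s := e2
    refine pc_lift hT hq (L := [(0,0,0,0),(1,0,0,0),(0,3,0,0)]) (I := 18) (J := 12)
      Pool.Agent.H1.G4.chk_2q1q_1 (by decide) (n := n) ?_ m0 m3 m4 m5 ?_ ?_ hO hE ?_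
    · intro j k hj hk e
      simp only [List.length_cons, List.length_nil] at hj hk
      have hj' : j < 6 := by omega
      have hk' : k < 6 := by omega
      interval_cases j <;> interval_cases k <;>
        first
        | rfl
        | exact absurd e s0.symm
        | exact absurd e s3.symm
        | exact absurd e e5.symm
        | exact absurd e e8
        | exact absurd e e2.symm
        | exact absurd e s0
        | exact absurd e n03
        | exact absurd e n02
        | exact absurd e n01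
        | exact absurd e u0.symm
        | exact absurd e s3
        | exact absurd e n03.symm
        | exact absurd e n23.symm
        | exact absurd e n13.symm
        | exact absurd e u3.symm
        | exact absurd e e5
        | exact absurd e n02.symm
        | exact absurd e n23
        | exact absurd e n12.symm
        | exact absurd e e1.symm
        | exact absurd e e8.symm
        | exact absurd e n01.symm
        | exact absurd e n13
        | exact absurd e n12
        | exact absurd e e3.symm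
        | exact absurd e e2
        | exact absurd e u0
        | exact absurd e u3
        | exact absurd e e1
        | exact absurd e e3
    · intro y hy
      obtain ⟨j, hj⟩ := (hr.nb y).1 (Or.inr hy)
      subst hj
      fin_cases j
      · exact ⟨1, by decide, rfl, by decide⟩
      · exact ⟨4, by decide, rfl, by decide⟩
      · exact absurd hy (has _ _ du2)
      · exact absurd hy (has _ _ du3)
    · intro y hy
      obtain ⟨j, hj⟩ := (hr.nb y).1 (Or.inl hy)
      subst hj
      fin_cases j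
      · exact absurd hy (has _ _ hin)
      · exact absurd hy (has _ _ d1u)
      · exact ⟨3, by decide, rfl, by decide⟩
      · exact ⟨2, by decide, rfl, by decide⟩
    · refine pre_of (E := [(0,1),(2,0),(2,1)]) (F := []) ?_ ?_ _ 0 (by decide)
      · intro p hp
        simp only [List.mem_cons, List.not_mem_nil, or_false] at hp
        rcases hp with rfl | rfl | rfl
        · exact hE _ _ ⟨s0.symm, x 1, x 0, fi (Or.inr (Or.inr (Or.inl rfl))), rp0,
            Or.inl ⟨d10, e3.symm, u0.symm⟩⟩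
        · exact hE _ _ ⟨s3, x 3, x 2, rp3, fi (Or.inl rfl), Or.inl ⟨d32, u3.symm, e1.symm⟩⟩
        · exact hE _ _ ⟨n03.symm, x 3, x 0, rp3, rp0, Or.inr ⟨rfl, rfl⟩⟩
      · intro p hp
        exact absurd hp (List.not_mem_nil)

end Pool.Agent.H22.G4
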