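import Pool.Agent.H22.G4.P2q1q
import Pool.Agent.H32.G4.Pcb
import Pool.Agent.H91.G4.Sym

/-!
# The row of the word `2q1q`, corner `1`
-/

set_option autoImplicit false

namespace Pool.Agent.H22.G4

open Relation Pool.Agent.H13.DA Pool.Agent.H72.G4 Pool.Agent.H21.G4 Pool.Agent.H13.G4
  Pool.Agent.H65.G4 Pool.Agent.H32.G4 Pool.Agent.H91.G4 Pool.Agent.H80.G4 Pool.Agent.H96.G4

/-- **The row `2q1q`, corner `1`.** -/
theorem row_2q1q_1 (V : Type*) [DecidableEq V] [Infinite V] :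
    Row V 3 ![CT.s2, CT.q, CT.s1, CT.q] 1 := by
  refine row_of_in ?_
  intro T X D a b c Z u x hM hT hC hu R hin f d hd hadj hdir ho hf hi h1 h2
  have has := hT.pl.asymm
  have i11 : (1 : Fin 4) + 1 = 2 := rfl
  have i01 : (0 : Fin 4) + 1 = 1 := rfl
  rw [i11] at hadj hdir hi h2
  have c0 : Cor T D u (x 0) (x 1) CT.s2 := R.cor 0
  have d1u : D (x 1) u := by
    obtain ⟨-, ⟨k, -, -⟩ | ⟨-, k, -⟩⟩ := c0
    · exact absurd k (has _ _ hin)
    · exact k
  rcases hdir with ⟨k, -, -, -⟩ | ⟨g1, g2, g3, g4⟩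
  · exact absurd k (has _ _ d1u)
  · have hq : Qd T D u (x 2) f (x 1) d := by
      refine ⟨g4, g3, g2, g1, hd, fun y => (hadj y).trans ?_⟩
      tauto
    have hp : PcH T D a b c u (x 2) f (x 1) d :=
      pch hM hT hC hu hi hf ho hq
        (sh_symm hT.pl.disc.cx h2) (sh_symm hT.pl.disc.cx h1)
    have H := ctx_cx5 hM hT hC
    exact pc_2q1q_in hM hT R rfl rfl rfl rfl hin hp ((in_inr hi).gd hT H).1
      ((in_inr ho).gd hT H).1

variable {V : Type*} [DecidableEq V] {T X : Finset (V × V × V)} {D : V → V → Prop} {a b c : V}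
  {Z : List V}

/-- **The row `2q1q`, corner `1`**, in the common form. -/
theorem pc_2q1q_1 [Infinite V] (hM : MCw T D a b c) (hT : Ts T D a b c)
    (hC : Ctx T X D a b c Z) {u : V} (hu : In X D Z u) {x : Fin 4 → V} {w : Fin 4 → CT}
    (R : Rot T D u 3 x w) (hw : [w 0, w 1, w 2, w 3] = [CT.s2, CT.q, CT.s1, CT.q]) :
    PCok T X D Z u x 1 := by
  have e : w = ![CT.s2, CT.q, CT.s1, CT.q] := by
    simp only [List.cons.injEq, and_true] at hw
    obtain ⟨h0, h1, h2, h3⟩ := hw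
    funext i
    fin_cases i
    · exact h0
    · exact h1
    · exact h2
    · exact h3
  subst e
  exact row_2q1q_1 V T X D a b c Z u x hM hT hC hu R

end Pool.Agent.H22.G4
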